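import Mathlib

set_option autoImplicit false

namespace Pool.Agent.H.MP_87b2fe_co

open Finset

noncomputable def g (r : ℝ) : ℕ → ℝ
  | 0 => 1
  | 1 => 1
  | (k + 2) => (g r k + r * g r (k + 1)) / (r * (k + 2))

noncomputable def a (r : ℝ) (k : ℕ) : ℝ := g r k ^ 2 * (r ^ k * k.factorial)

section abs
variable {V : Type} [AddCommGroup V] [Module ℝ V]

noncomputable def vv (r : ℝ) (U : V →ₗ[ℝ] V) (e : ℕ → V) (n : ℕ) : V :=
  e n - ∑ j : Fin n, g r (n - j) • (U ^ (n - j)) (vv r U e j)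
termination_by n
decreasing_by exact j.2

lemma e_eq (r : ℝ) (U : V →ₗ[ℝ] V) (e : ℕ → V) (n : ℕ) :
    e n = ∑ j ∈ range (n + 1), g r (n - j) • (U ^ (n - j)) (vv r U e j) := by
  rw [sum_range_succ, ← Fin.sum_univ_eq_sum_range
    (fun j => g r (n - j) • (U ^ (n - j)) (vv r U e j)) n]
  rw [Nat.sub_self, pow_zero, g, one_smul, Module.End.one_apply]
  conv_rhs => enter [2]; rw [vv]
  abel

lemma D_pow (r : ℝ) (U D : V →ₗ[ℝ] V) (hc : ∀ f, D (U f) = U (D f) + r • f) (v : V)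
    (hv : D v = 0) (k : ℕ) : D ((U ^ (k + 1)) v) = (r * (k + 1)) • (U ^ k) v := by
  induction k with
  | zero => simp [hc, hv]
  | succ k ih =>
    rw [pow_succ' U (k + 1), Module.End.mul_apply, hc, ih, map_smul, ← Module.End.mul_apply,
      ← pow_succ', ← add_smul]
    congr 1; push_cast; ring

lemma D_vv (r : ℝ) (hr : r ≠ 0) (U D : V →ₗ[ℝ] V) (hc : ∀ f, D (U f) = U (D f) + r • f)
    (e : ℕ → V) (h0 : D (e 0) = 0) (h1 : D (e 1) = r • e 0)
    (h2 : ∀ n, D (e (n + 2)) = U (e n) + r • e (n + 1)) (n : ℕ) : D (vv r U e n) = 0 := by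
  induction n using Nat.strong_induction_on with
  | _ n ih =>
    rcases n with _ | _ | n
    · rw [vv]; simpa using h0
    · have hv : vv r U e 0 = e 0 := by rw [vv]; simp
      rw [vv]
      have := hc (e 0)
      simp [h1, g, hv, this, h0]
    · have key : D (e (n + 2)) = D (vv r U e (n + 2)) +
          ∑ j ∈ range (n + 2), (g r (n + 2 - j) * (r * ((n + 1 - j : ℕ) + 1))) •
            (U ^ (n + 1 - j)) (vv r U e j) := by
        conv_lhs => rw [e_eq r U e (n + 2), sum_range_succ]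
        rw [Nat.sub_self, pow_zero, g, one_smul, Module.End.one_apply, map_add, add_comm, map_sum]
        congr 1
        apply sum_congr rfl
        intro j hj
        have hj' := mem_range.1 hj
        have : n + 2 - j = (n + 1 - j) + 1 := by omega
        rw [map_smul]
        conv_lhs => enter [2]; rw [this, D_pow r U D hc _ (ih j hj')]
        rw [smul_smul]
      have key2 : U (e n) + r • e (n + 1) =
          ∑ j ∈ range (n + 2), (g r (n + 2 - j) * (r * ((n + 1 - j : ℕ) + 1))) •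
            (U ^ (n + 1 - j)) (vv r U e j) := by
        conv_lhs => rw [e_eq r U e n, e_eq r U e (n + 1), sum_range_succ _ (n + 1)]
        rw [sum_range_succ _ (n + 1), smul_add, ← add_assoc, map_sum, smul_sum, ← sum_add_distrib]
        congr 1
        · apply sum_congr rfl
          intro j hj
          have hj' := mem_range.1 hj
          obtain ⟨m, rfl⟩ : ∃ m, n = j + m := ⟨n - j, by omega⟩
          have e1 : j + m - j = m := by omega
          have e2 : j + m + 1 - j = m + 1 := by omega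
          have e3 : j + m + 2 - j = m + 2 := by omega
          rw [e1, e2, e3, map_smul, ← Module.End.mul_apply, ← pow_succ', smul_smul, ← add_smul]
          congr 1
          rw [g]
          have : (m : ℝ) + 2 ≠ 0 := by positivity
          push_cast
          field_simp
          ring
        · have e1 : n + 2 - (n + 1) = 1 := by omega
          rw [Nat.sub_self, e1, smul_smul]
          simp [g]
      rw [h2, key2] at key
      exact right_eq_add.1 key

lemma orth (r : ℝ) (U D : V →ₗ[ℝ] V) (hc : ∀ f, D (U f) = U (D f) + r • f)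
    (B : ℕ → V →ₗ[ℝ] V →ₗ[ℝ] ℝ) (hs : ∀ n f g, B n f g = B n g f)
    (hadj : ∀ n f g, B (n + 1) (U f) g = B n f (D g)) (hz : ∀ f g, B 0 (U f) g = 0)
    (v w : V) (hv : D v = 0) (hw : D w = 0) (N : ℕ) : ∀ k l : ℕ,
    B N ((U ^ k) v) ((U ^ l) w) =
      if k = l ∧ k ≤ N then r ^ k * k.factorial * B (N - k) v w else 0 := by
  induction N with
  | zero =>
    intro k l
    rcases k with _ | k
    · rcases l with _ | l
      · simp
      · rw [hs, pow_succ', Module.End.mul_apply, hz]; simp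
    · rw [pow_succ', Module.End.mul_apply, hz]; simp
  | succ N ih =>
    intro k l
    rcases k with _ | k
    · rcases l with _ | l
      · simp
      · rw [hs, pow_succ', Module.End.mul_apply, hadj]; simp [hv]
    · rw [pow_succ', Module.End.mul_apply, hadj]
      rcases l with _ | l
      · simp [hw]
      · rw [D_pow r U D hc w hw, map_smul, ih, smul_eq_mul]
        by_cases h : k = l ∧ k ≤ N
        · obtain ⟨rfl, h⟩ := h
          rw [if_pos ⟨rfl, h⟩, if_pos ⟨rfl, by omega⟩, Nat.add_sub_add_right, Nat.factorial_succ]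
          push_cast; ring
        · rw [if_neg h, if_neg (by omega), mul_zero]

lemma norm_e (r : ℝ) (hr : r ≠ 0) (U D : V →ₗ[ℝ] V) (hc : ∀ f, D (U f) = U (D f) + r • f)
    (e : ℕ → V) (h0 : D (e 0) = 0) (h1 : D (e 1) = r • e 0)
    (h2 : ∀ n, D (e (n + 2)) = U (e n) + r • e (n + 1))
    (B : ℕ → V →ₗ[ℝ] V →ₗ[ℝ] ℝ) (hs : ∀ n f g, B n f g = B n g f)
    (hadj : ∀ n f g, B (n + 1) (U f) g = B n f (D g)) (hz : ∀ f g, B 0 (U f) g = 0) (n : ℕ) :
    B n (e n) (e n) = ∑ j ∈ range (n + 1), B j (vv r U e j) (vv r U e j) * a r (n - j) := by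
  conv_lhs => rw [e_eq r U e n]
  rw [LinearMap.map_sum₂]
  apply sum_congr rfl
  intro j hj
  have hj' := mem_range.1 hj
  rw [map_sum, sum_eq_single j]
  · rw [LinearMap.map_smul₂, map_smul, orth r U D hc B hs hadj hz _ _
      (D_vv r hr U D hc e h0 h1 h2 j) (D_vv r hr U D hc e h0 h1 h2 j), if_pos ⟨rfl, by omega⟩]
    have : n - (n - j) = j := by omega
    rw [this, a, smul_eq_mul, smul_eq_mul]; ring
  · intro i hi hij
    have hi' := mem_range.1 hi
    rw [LinearMap.map_smul₂, map_smul, orth r U D hc B hs hadj hz _ _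
      (D_vv r hr U D hc e h0 h1 h2 j) (D_vv r hr U D hc e h0 h1 h2 i), if_neg (by omega)]
    simp
  · intro h; exact absurd hj h

end abs

open PowerSeries

lemma a_rec (r : ℝ) (hr : r ≠ 0) (m : ℕ) :
    (m + 3) * a r (m + 3) = (m + 2 + r) * a r (m + 2) + (m + 2 + r) * a r (m + 1)
      - (m + 1) * a r m := by
  have e3 : g r (m + 3) = (g r (m + 1) + r * g r (m + 2)) / (r * ((m + 1 : ℕ) + 2)) := by
    rw [g]
  have e2 : g r (m + 2) = (g r m + r * g r (m + 1)) / (r * (m + 2)) := by rw [g]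
  simp only [a, Nat.factorial_succ]
  rw [e3, e2]
  have : (m : ℝ) + 2 ≠ 0 := by positivity
  have : (m : ℝ) + 1 + 2 ≠ 0 := by positivity
  push_cast
  field_simp
  ring

lemma G_ode (r : ℝ) (hr : r ≠ 0) :
    (1 - X - X ^ 2 + X ^ 3) * d⁄dX ℝ (PowerSeries.mk (a r)) =
      (C r + C (r + 1) * X - X ^ 2) * PowerSeries.mk (a r) := by
  have a0 : a r 0 = 1 := by simp [a, g]
  have a1 : a r 1 = r := by simp [a, g]
  have a2 : a r 2 = (1 + r) ^ 2 / 2 := by
    simp only [a, g]; simp [Nat.factorial]; field_simp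
  ext n
  have hX : ∀ (f : ℝ⟦X⟧) (n : ℕ), coeff n (X * f) = if 1 ≤ n then coeff (n - 1) f else 0 := by
    intro f n
    have := coeff_X_pow_mul' f 1 n
    rwa [pow_one] at this
  simp only [add_mul, sub_mul, one_mul, map_add, map_sub, coeff_X_pow_mul', mul_assoc,
    coeff_C_mul, hX, coeff_derivative, coeff_mk]
  rcases n with _ | _ | _ | n
  · simp [a0, a1]
  · simp [a0, a1, a2]; ring
  · have := a_rec r hr 0
    simp at this ⊢
    linarith
  · have := a_rec r hr (n + 1)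
    simp only [show 1 ≤ n + 1 + 1 + 1 by omega, show 2 ≤ n + 1 + 1 + 1 by omega,
      show 3 ≤ n + 1 + 1 + 1 by omega, if_true]
    have e1 : n + 1 + 1 + 1 - 1 = n + 2 := by omega
    have e2 : n + 1 + 1 + 1 - 2 = n + 1 := by omega
    have e3 : n + 1 + 1 + 1 - 3 = n := by omega
    rw [e1, e2, e3]
    have f1 : n + 1 + 1 + 1 + 1 = n + 1 + 3 := by omega
    have f2 : n + 2 + 1 = n + 1 + 2 := by omega
    have f3 : n + 1 + 1 + 1 = n + 1 + 2 := by omega
    have f4 : n + 2 = n + 1 + 1 := by omega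
    rw [f1, f2, f3, f4]
    push_cast at this ⊢
    linarith

noncomputable def w (r : ℝ) (k : ℕ) : ℝ := (k % 2 : ℕ) + r * k

lemma W_eq (r : ℝ) :
    (1 - X - X ^ 2 + X ^ 3) * PowerSeries.mk (w r) = C (1 + r) * X + C (r - 1) * X ^ 2 := by
  ext n
  have hX : ∀ (f : ℝ⟦X⟧) (n : ℕ), coeff n (X * f) = if 1 ≤ n then coeff (n - 1) f else 0 := by
    intro f n
    have := coeff_X_pow_mul' f 1 n
    rwa [pow_one] at this
  simp only [add_mul, sub_mul, one_mul, map_add, map_sub, coeff_X_pow_mul',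
    coeff_C_mul, hX, coeff_mk, coeff_X, coeff_X_pow]
  rcases n with _ | _ | _ | n
  · simp [w]
  · simp [w]
  · simp [w]; ring
  · simp only [show 1 ≤ n + 1 + 1 + 1 by omega, show 2 ≤ n + 1 + 1 + 1 by omega,
      show 3 ≤ n + 1 + 1 + 1 by omega, if_true]
    have e1 : n + 1 + 1 + 1 - 1 = n + 2 := by omega
    have e2 : n + 1 + 1 + 1 - 2 = n + 1 := by omega
    have e3 : n + 1 + 1 + 1 - 3 = n := by omega
    rw [e1, e2, e3, if_neg (by omega), if_neg (by omega)]
    have m1 : (n + 1 + 1 + 1) % 2 = (n + 1) % 2 := by omega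
    have m2 : (n + 2) % 2 = n % 2 := by omega
    simp only [w, m1, m2]
    push_cast; ring

lemma H_ode (r : ℕ) (hr : 1 ≤ r) :
    d⁄dX ℝ ((1 - X) ^ r * PowerSeries.mk (a r)) = PowerSeries.mk (w r) * ((1 - X) ^ r * PowerSeries.mk (a r)) := by
  have hr' : (r : ℝ) ≠ 0 := by positivity
  have hne : (1 - X - X ^ 2 + X ^ 3 : ℝ⟦X⟧) ≠ 0 := by
    intro h
    have := congrArg constantCoeff h
    simp at this
  apply mul_left_cancel₀ hne
  rw [← mul_assoc _ (PowerSeries.mk (w r)), W_eq]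
  obtain ⟨s, rfl⟩ : ∃ s, r = s + 1 := ⟨r - 1, by omega⟩
  have h := G_ode ((s + 1 : ℕ) : ℝ) hr'
  rw [Derivation.leibniz, Derivation.leibniz_pow]
  simp only [smul_eq_mul, map_sub, derivative_X, Derivation.map_one_eq_zero, Nat.add_sub_cancel,
    nsmul_eq_mul, map_add, map_one, map_natCast] at h ⊢
  linear_combination (1 - X) ^ (s + 1) * h

lemma H_pos (r : ℕ) (hr : 1 ≤ r) :
    (∀ n, 0 ≤ coeff n ((1 - X) ^ r * PowerSeries.mk (a r))) ∧
      ∀ n, 2 ≤ n → 0 < coeff n ((1 - X) ^ r * PowerSeries.mk (a r)) := by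
  set H : ℝ⟦X⟧ := (1 - X) ^ r * PowerSeries.mk (a r) with hH
  have h0 : coeff 0 H = 1 := by simp [hH, a, g]
  have hw : ∀ k, 0 ≤ w r k := fun k => by unfold w; positivity
  have hrec : ∀ n, coeff (n + 1) H * (n + 1) =
      ∑ p ∈ antidiagonal n, w r p.1 * coeff p.2 H := by
    intro n
    have := congrArg (coeff n) (H_ode r hr)
    rw [← hH, coeff_derivative, coeff_mul n] at this
    simpa only [coeff_mk] using this
  have hnn : ∀ n, 0 ≤ coeff n H := by
    intro n
    induction n using Nat.strong_induction_on with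
    | _ n ih =>
      rcases n with _ | n
      · rw [h0]; norm_num
      · have : 0 ≤ coeff (n + 1) H * (n + 1) := by
          rw [hrec]
          refine sum_nonneg (fun p hp => mul_nonneg (hw _) (ih _ ?_))
          have := mem_antidiagonal.1 hp
          omega
        exact nonneg_of_mul_nonneg_left this (by positivity)
  refine ⟨hnn, fun n hn => ?_⟩
  obtain ⟨m, rfl⟩ : ∃ m, n = m + 1 := ⟨n - 1, by omega⟩
  have : 0 < coeff (m + 1) H * (m + 1) := by
    rw [hrec]
    refine sum_pos' (fun p _ => mul_nonneg (hw _) (hnn _)) ⟨(m, 0), by simp, ?_⟩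
    simp only [h0, mul_one, w]
    have : (0 : ℝ) < m := by exact_mod_cast (by omega : 0 < m)
    have : (0 : ℝ) < r := by exact_mod_cast hr
    positivity
  exact (mul_pos_iff_of_pos_right (by positivity)).1 this

lemma final (r : ℕ) (hr : 1 ≤ r) (p b : ℕ → ℝ) (hb : ∀ j, 0 ≤ b j) (hb0 : 0 < b 0)
    (hp : ∀ n, p n = ∑ j ∈ range (n + 1), b j * a r (n - j)) (n : ℕ) (hn : 2 ≤ n) :
    0 < coeff n ((1 - X) ^ r * PowerSeries.mk p) := by
  have : PowerSeries.mk p = PowerSeries.mk b * PowerSeries.mk (a r) := by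
    ext n
    rw [coeff_mk, coeff_mul, hp, Nat.sum_antidiagonal_eq_sum_range_succ_mk]
    simp
  rw [this, mul_left_comm, coeff_mul]
  obtain ⟨h1, h2⟩ := H_pos r hr
  refine sum_pos' (fun q _ => mul_nonneg (by simpa using hb _) (h1 _)) ⟨(0, n), by simp, ?_⟩
  exact mul_pos (by simpa using hb0) (h2 n hn)

section conc
variable {P : Type} [PartialOrder P] (ρ : P → ℕ) (hfin : ∀ n : ℕ, {x : P | ρ x = n}.Finite)

noncomputable def L (n : ℕ) : Finset P := (hfin n).toFinset

lemma mem_L (n : ℕ) (x : P) : x ∈ L ρ hfin n ↔ ρ x = n := by simp [L]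

open Classical in
noncomputable def UU : (P → ℝ) →ₗ[ℝ] (P → ℝ) where
  toFun f z := ∑ y ∈ L ρ hfin (ρ z - 1), if y ⋖ z then f y else 0
  map_add' f g := by
    ext z; simp only [Pi.add_apply, ← sum_add_distrib]
    exact sum_congr rfl (fun y _ => by split_ifs <;> simp)
  map_smul' c f := by
    ext z; simp only [Pi.smul_apply, smul_eq_mul, RingHom.id_apply, mul_sum]
    exact sum_congr rfl (fun y _ => by split_ifs <;> simp)

open Classical in
noncomputable def DD : (P → ℝ) →ₗ[ℝ] (P → ℝ) where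
  toFun f y := ∑ z ∈ L ρ hfin (ρ y + 1), if y ⋖ z then f z else 0
  map_add' f g := by
    ext z; simp only [Pi.add_apply, ← sum_add_distrib]
    exact sum_congr rfl (fun y _ => by split_ifs <;> simp)
  map_smul' c f := by
    ext z; simp only [Pi.smul_apply, smul_eq_mul, RingHom.id_apply, mul_sum]
    exact sum_congr rfl (fun y _ => by split_ifs <;> simp)

noncomputable def BB (n : ℕ) : (P → ℝ) →ₗ[ℝ] (P → ℝ) →ₗ[ℝ] ℝ :=
  LinearMap.mk₂ ℝ (fun f g => ∑ x ∈ L ρ hfin n, f x * g x)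
    (fun f f' g => by simp [add_mul, sum_add_distrib])
    (fun c f g => by simp [mul_sum, mul_assoc])
    (fun f g g' => by simp [mul_add, sum_add_distrib])
    (fun c f g => by simp [mul_sum, mul_left_comm])

lemma BB_apply (n : ℕ) (f g : P → ℝ) : BB ρ hfin n f g = ∑ x ∈ L ρ hfin n, f x * g x := rfl

open Classical in
lemma UU_apply (f : P → ℝ) (z : P) :
    UU ρ hfin f z = ∑ y ∈ L ρ hfin (ρ z - 1), if y ⋖ z then f y else 0 := rfl

open Classical in
lemma DD_apply (f : P → ℝ) (y : P) :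
    DD ρ hfin f y = ∑ z ∈ L ρ hfin (ρ y + 1), if y ⋖ z then f z else 0 := rfl

open Classical in
lemma count_eq (n : ℕ) (Q : P → Prop) (hQ : ∀ z, Q z → ρ z = n) :
    (∑ z ∈ L ρ hfin n, if Q z then (1 : ℝ) else 0) = ({z | Q z}.ncard : ℝ) := by
  have : {z | Q z} = (((L ρ hfin n).filter Q : Finset P) : Set P) := by
    ext z
    simp only [Set.mem_ofPred_eq, coe_filter, mem_L]
    exact ⟨fun h => ⟨hQ z h, h⟩, fun h => h.2⟩
  rw [this, Set.ncard_coe_finset, card_filter]
  push_cast; rfl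

variable (hcov : ∀ x y : P, x ⋖ y → ρ y = ρ x + 1)
include hcov

lemma adj (n : ℕ) (f g : P → ℝ) :
    BB ρ hfin (n + 1) (UU ρ hfin f) g = BB ρ hfin n f (DD ρ hfin g) := by
  classical
  simp only [BB_apply, UU_apply, DD_apply]
  have h1 : ∀ z ∈ L ρ hfin (n + 1), (∑ y ∈ L ρ hfin (ρ z - 1), if y ⋖ z then f y else 0) * g z =
      ∑ y ∈ L ρ hfin n, if y ⋖ z then f y * g z else 0 := by
    intro z hz
    rw [(mem_L ρ hfin _ _).1 hz, Nat.add_sub_cancel, sum_mul]
    exact sum_congr rfl (fun y _ => by split_ifs <;> simp)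
  have h2 : ∀ y ∈ L ρ hfin n, f y * (∑ z ∈ L ρ hfin (ρ y + 1), if y ⋖ z then g z else 0) =
      ∑ z ∈ L ρ hfin (n + 1), if y ⋖ z then f y * g z else 0 := by
    intro y hy
    rw [(mem_L ρ hfin _ _).1 hy, mul_sum]
    exact sum_congr rfl (fun y _ => by split_ifs <;> simp)
  rw [sum_congr rfl h1, sum_congr rfl h2, sum_comm]

lemma bzero (f g : P → ℝ) : BB ρ hfin 0 (UU ρ hfin f) g = 0 := by
  classical
  simp only [BB_apply, UU_apply]
  refine sum_eq_zero (fun z hz => ?_)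
  rw [sum_eq_zero, zero_mul]
  intro y _
  rw [if_neg]
  intro h
  have := hcov _ _ h
  have := (mem_L ρ hfin _ _).1 hz
  omega

lemma comm (r : ℕ) (hD2 : ∀ x : P, {z : P | x ⋖ z}.ncard = {z : P | z ⋖ x}.ncard + r)
    (hD1 : ∀ x y : P, x ≠ y →
      {z : P | z ⋖ x ∧ z ⋖ y}.ncard = {z : P | x ⋖ z ∧ y ⋖ z}.ncard) (f : P → ℝ) :
    DD ρ hfin (UU ρ hfin f) = UU ρ hfin (DD ρ hfin f) + (r : ℝ) • f := by
  classical
  ext x
  simp only [Pi.add_apply, Pi.smul_apply, smul_eq_mul, UU_apply, DD_apply]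
  have h1 : ∀ z ∈ L ρ hfin (ρ x + 1),
      (if x ⋖ z then ∑ y ∈ L ρ hfin (ρ z - 1), if y ⋖ z then f y else 0 else 0) =
      ∑ y ∈ L ρ hfin (ρ x), (if x ⋖ z ∧ y ⋖ z then (1 : ℝ) else 0) * f y := by
    intro z hz
    rw [(mem_L ρ hfin _ _).1 hz, Nat.add_sub_cancel]
    by_cases h : x ⋖ z <;> simp [h]
  have h2 : ∀ w ∈ L ρ hfin (ρ x - 1),
      (if w ⋖ x then ∑ y ∈ L ρ hfin (ρ w + 1), if w ⋖ y then f y else 0 else 0) =
      ∑ y ∈ L ρ hfin (ρ x), (if w ⋖ x ∧ w ⋖ y then (1 : ℝ) else 0) * f y := by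
    intro w _
    by_cases h : w ⋖ x
    · rw [hcov _ _ h]; simp [h]
    · simp [h]
  rw [sum_congr rfl h1, sum_congr rfl h2, sum_comm, sum_comm (s := L ρ hfin (ρ x - 1))]
  have h3 : (r : ℝ) * f x = ∑ y ∈ L ρ hfin (ρ x), if y = x then r * f y else 0 := by
    rw [sum_ite_eq', if_pos ((mem_L ρ hfin _ _).2 rfl)]
  rw [h3, ← sum_add_distrib]
  apply sum_congr rfl
  intro y _
  rw [← sum_mul, ← sum_mul]
  have c1 := count_eq ρ hfin (ρ x + 1) (fun z => x ⋖ z ∧ y ⋖ z) (fun z h => hcov _ _ h.1)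
  have c2 := count_eq ρ hfin (ρ x - 1) (fun z => z ⋖ x ∧ z ⋖ y)
    (fun z h => by have := hcov _ _ h.1; omega)
  rw [show (∑ z ∈ L ρ hfin (ρ x + 1), if x ⋖ z ∧ y ⋖ z then (1 : ℝ) else 0) =
      ({z | x ⋖ z ∧ y ⋖ z}.ncard : ℝ) from by convert c1,
    show (∑ z ∈ L ρ hfin (ρ x - 1), if z ⋖ x ∧ z ⋖ y then (1 : ℝ) else 0) =
      ({z | z ⋖ x ∧ z ⋖ y}.ncard : ℝ) from by convert c2]
  by_cases h : y = x
  · subst h
    simp only [and_self, if_true, hD2]
    push_cast; ring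
  · rw [if_neg h, hD1 x y (Ne.symm h), add_zero]

noncomputable def ee (n : ℕ) : P → ℝ := fun x => if ρ x = n then 1 else 0

lemma D_ee (n : ℕ) (y : P) :
    DD ρ hfin (ee ρ n) y = if ρ y + 1 = n then ({z : P | y ⋖ z}.ncard : ℝ) else 0 := by
  classical
  rw [DD_apply, ← count_eq ρ hfin (ρ y + 1) (fun z => y ⋖ z) (fun z h => hcov _ _ h)]
  split_ifs with h
  · apply sum_congr rfl
    intro z hz
    simp [ee, (mem_L ρ hfin _ _).1 hz, h]
  · apply sum_eq_zero
    intro z hz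
    simp [ee, (mem_L ρ hfin _ _).1 hz, h]

lemma U_ee (n : ℕ) (y : P) :
    UU ρ hfin (ee ρ n) y = if ρ y = n + 1 then ({z : P | z ⋖ y}.ncard : ℝ) else 0 := by
  classical
  rw [UU_apply, ← count_eq ρ hfin (ρ y - 1) (fun z => z ⋖ y)
    (fun z h => by have := hcov _ _ h; omega)]
  split_ifs with h
  · apply sum_congr rfl
    intro z hz
    simp [ee, (mem_L ρ hfin _ _).1 hz, h]
  · apply sum_eq_zero
    intro z _
    split_ifs with h'
    · have := hcov _ _ h'
      simp only [ee]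
      rw [if_neg (by omega)]
    · rfl

include hfin in
lemma main (r : ℕ) (hr : 1 ≤ r) (x0 : P) (hx0 : ρ x0 = 0)
    (hD2 : ∀ x : P, {z : P | x ⋖ z}.ncard = {z : P | z ⋖ x}.ncard + r)
    (hD1 : ∀ x y : P, x ≠ y →
      {z : P | z ⋖ x ∧ z ⋖ y}.ncard = {z : P | x ⋖ z ∧ y ⋖ z}.ncard) (n : ℕ) (hn : 2 ≤ n) :
    0 < coeff n ((1 - X) ^ r * PowerSeries.mk (fun m => ({x : P | ρ x = m}.ncard : ℝ))) := by
  classical
  have hr' : (r : ℝ) ≠ 0 := by positivity
  have h0 : DD ρ hfin (ee ρ 0) = 0 := by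
    ext y; simp [D_ee ρ hfin hcov]
  have h1 : DD ρ hfin (ee ρ 1) = (r : ℝ) • ee ρ 0 := by
    ext y
    rw [D_ee ρ hfin hcov, hD2]
    by_cases h : ρ y = 0
    · have : {z : P | z ⋖ y} = ∅ := by
        ext z
        simp only [Set.mem_ofPred_eq, Set.mem_empty_iff_false, iff_false]
        intro hz
        have := hcov _ _ hz
        omega
      simp [ee, h, this]
    · simp [ee, h]
  have h2 : ∀ n, DD ρ hfin (ee ρ (n + 2)) = UU ρ hfin (ee ρ n) + (r : ℝ) • ee ρ (n + 1) := by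
    intro n
    ext y
    rw [Pi.add_apply, D_ee ρ hfin hcov, U_ee ρ hfin hcov, hD2]
    by_cases h : ρ y = n + 1
    · simp [ee, h]
    · simp [ee, h]
  have hB : ∀ m, BB ρ hfin m (ee ρ m) (ee ρ m) = ({x : P | ρ x = m}.ncard : ℝ) := by
    intro m
    rw [BB_apply, ← count_eq ρ hfin m (fun z => ρ z = m) (fun z h => h)]
    apply sum_congr rfl
    intro z hz
    simp [ee, (mem_L ρ hfin _ _).1 hz]
  have key := norm_e (r : ℝ) hr' (UU ρ hfin) (DD ρ hfin) (comm ρ hfin hcov r hD2 hD1) (ee ρ)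
    h0 h1 h2 (BB ρ hfin) (fun n f g => by simp only [BB_apply, mul_comm])
    (adj ρ hfin hcov) (bzero ρ hfin hcov)
  refine final r hr _ (fun j => BB ρ hfin j (vv r (UU ρ hfin) (ee ρ) j)
    (vv r (UU ρ hfin) (ee ρ) j)) (fun j => ?_) ?_ (fun m => by rw [← hB, key]) n hn
  · exact sum_nonneg (fun x _ => mul_self_nonneg _)
  · have hv : vv r (UU ρ hfin) (ee ρ) 0 = ee ρ 0 := by rw [vv]; simp
    simp only [hv, hB]
    exact_mod_cast (Set.ncard_pos (hfin 0)).2 ⟨x0, hx0⟩

end conc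

end Pool.Agent.H.MP_87b2fe_co
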